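import Pool.Agent.K3h54.CP.Stm
import Pool.Agent.Y959.Sv.Up

/-!
# The upper bound sieve for patterns of rough numbers (CP brick UB)
-/

set_option autoImplicit false

open Finset

namespace Pool.Agent.K3h57.CP

open Pool.Agent.K3h54.CP

/-- the bad classes, shifted by `A` -/
def QQ (H : Finset ℤ) (A : ℕ) (p n : ℕ) : Prop := ∃ g ∈ H, (p : ℤ) ∣ ((n : ℤ) + A) + g

lemma QQ_per (H : Finset ℤ) (A p n : ℕ) : QQ H A p n ↔ QQ H A p (n % p) := by
  have h : (n : ℤ) = ((n % p : ℕ) : ℤ) + p * ((n / p : ℕ) : ℤ) := by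
    exact_mod_cast (Nat.mod_add_div n p).symm
  unfold QQ
  constructor
  · rintro ⟨g, hg, hd⟩
    refine ⟨g, hg, ?_⟩
    have h2 : ((n % p : ℕ) : ℤ) + A + g = ((n : ℤ) + A + g) - p * ((n / p : ℕ) : ℤ) := by
      linear_combination -h
    rw [h2]
    exact dvd_sub hd (dvd_mul_right _ _)
  · rintro ⟨g, hg, hd⟩
    refine ⟨g, hg, ?_⟩
    have h2 : (n : ℤ) + A + g = (((n % p : ℕ) : ℤ) + A + g) + p * ((n / p : ℕ) : ℤ) := by
      linear_combination h
    rw [h2]
    exact dvd_add hd (dvd_mul_right _ _)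

lemma nu_eq (H : Finset ℤ) (A p : ℕ) : Pool.Agent.Y959.Sv.nu (QQ H A) p = om H p := by
  classical
  have hper : Function.Periodic (fun m : ℕ => ∃ g ∈ H, (p : ℤ) ∣ (m : ℤ) + g) p := by
    intro m
    refine propext ⟨?_, ?_⟩
    · rintro ⟨g, hg, hd⟩
      refine ⟨g, hg, ?_⟩
      have h2 : (m : ℤ) + g = (((m + p : ℕ) : ℤ) + g) - p := by push_cast; ring
      rw [h2]
      exact dvd_sub hd dvd_rfl
    · rintro ⟨g, hg, hd⟩
      refine ⟨g, hg, ?_⟩
      have h2 : ((m + p : ℕ) : ℤ) + g = ((m : ℤ) + g) + p := by push_cast; ring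
      rw [h2]
      exact dvd_add hd dvd_rfl
  have h1 := Nat.filter_Ico_card_eq_of_periodic A p
    (fun m : ℕ => ∃ g ∈ H, (p : ℤ) ∣ (m : ℤ) + g) hper
  rw [Nat.count_eq_card_filter_range] at h1
  have h2 : om H p = ((range p).filter (fun m : ℕ => ∃ g ∈ H, (p : ℤ) ∣ (m : ℤ) + g)).card := by
    unfold om
    congr 1
  rw [h2, ← h1]
  unfold Pool.Agent.Y959.Sv.nu
  refine card_bij (fun m _ => m + A) ?_ ?_ ?_
  · intro m hm
    rw [mem_filter, mem_range] at hm
    rw [mem_filter, mem_Ico]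
    refine ⟨by omega, ?_⟩
    obtain ⟨g, hg, hd⟩ := hm.2
    refine ⟨g, hg, ?_⟩
    push_cast
    exact hd
  · intro m _ m' _ h
    omega
  · intro m hm
    rw [mem_filter, mem_Ico] at hm
    refine ⟨m - A, ?_, by omega⟩
    rw [mem_filter, mem_range]
    refine ⟨by omega, ?_⟩
    obtain ⟨g, hg, hd⟩ := hm.2
    refine ⟨g, hg, ?_⟩
    have h3 : ((m - A : ℕ) : ℤ) = (m : ℤ) - A := by
      rw [Nat.cast_sub hm.1.1]
    rw [h3]
    have h4 : (m : ℤ) - A + A + g = m + g := by ring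
    rw [h4]
    exact hd

lemma om_le (H : Finset ℤ) (p : ℕ) : om H p ≤ H.card := by
  classical
  unfold om
  rcases Nat.eq_zero_or_pos p with rfl | hp
  · simp
  have h : ((range p).filter (fun m : ℕ => ∃ g ∈ H, (p : ℤ) ∣ m + g)) ⊆
      H.image (fun g : ℤ => ((-g) % (p : ℤ)).toNat) := by
    intro m hm
    rw [mem_filter, mem_range] at hm
    obtain ⟨hmp, g, hg, hd⟩ := hm
    rw [mem_image]
    refine ⟨g, hg, ?_⟩
    have h1 : (-g) % (p : ℤ) = (m : ℤ) := by
      have h2 : (-g) ≡ (m : ℤ) [ZMOD p] := by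
        rw [Int.modEq_iff_dvd, sub_neg_eq_add]
        exact hd
      rw [show (-g) % (p : ℤ) = (m : ℤ) % p from h2]
      exact Int.emod_eq_of_lt (by positivity) (by exact_mod_cast hmp)
    rw [h1]
    simp
  exact (card_le_card h).trans card_image_le

theorem t_UB : S_UB := by
  classical
  intro r t ht
  obtain ⟨K0, z0, hK0, hsv⟩ := Pool.Agent.Y959.Sv.up_sieve r
  refine ⟨z0, 4 * K0 * t, 2 ^ (4 * K0 * t), fun X hX => ?_⟩
  have hE : 4 * K0 * t ≠ 0 := by positivity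
  have hX1 : 1 ≤ X := le_trans Nat.one_le_two_pow hX
  have hXr : (1 : ℝ) ≤ X := by exact_mod_cast hX1
  obtain ⟨u, hu⟩ : ∃ u : ℝ, u = (X : ℝ) ^ (1 / ((4 * K0 * t : ℕ) : ℝ)) := ⟨_, rfl⟩
  have hu0 : 0 ≤ u := by rw [hu]; positivity
  have huX : u ^ (4 * K0 * t) = X := by
    rw [hu, one_div]
    exact Real.rpow_inv_natCast_pow (by positivity) hE
  have hu2 : 2 ≤ u := by
    by_contra hlt
    push Not at hlt
    have h1 : u ^ (4 * K0 * t) < 2 ^ (4 * K0 * t) := pow_lt_pow_left₀ hlt hu0 hE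
    rw [huX] at h1
    have h2 : ((2 ^ (4 * K0 * t) : ℕ) : ℝ) ≤ X := by exact_mod_cast hX
    push_cast at h2
    linarith
  have hu1 : 1 ≤ u := by linarith
  obtain ⟨y, hy⟩ : ∃ y : ℕ, y = ⌊u ^ 2⌋₊ := ⟨_, rfl⟩
  have hyu : (y : ℝ) ≤ u ^ 2 := by rw [hy]; exact Nat.floor_le (by positivity)
  have hyu2 : u ≤ (y : ℝ) := by
    have := Nat.lt_floor_add_one (u ^ 2)
    rw [← hy] at this
    nlinarith
  have hy3 : 3 ≤ y := by
    rw [hy]
    apply Nat.le_floor
    push_cast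
    nlinarith
  have hsqrt : √(X : ℝ) = u ^ (2 * K0 * t) := by
    rw [Real.sqrt_eq_iff_mul_self_eq (by positivity) (by positivity), ← pow_add, ← huX]
    congr 1
    ring
  have hyX : (y : ℝ) ≤ X := by
    refine hyu.trans ?_
    rw [← huX]
    apply pow_le_pow_right₀ hu1
    have : 1 ≤ K0 * t := Nat.one_le_iff_ne_zero.2 (by positivity)
    nlinarith
  refine ⟨y, by exact_mod_cast hyX, ?_, ?_⟩
  · have h1 : (X : ℝ) ≤ (y : ℝ) ^ (4 * K0 * t) := by
      rw [← huX]
      exact pow_le_pow_left₀ hu0 hyu2 _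
    exact_mod_cast h1
  intro A B hBX hAB H hH
  have hAB2 : A ≤ B := by
    by_contra hcon
    push Not at hcon
    have h1 : (B : ℝ) < A := by exact_mod_cast hcon
    have h2 := Real.sqrt_nonneg (X : ℝ)
    linarith
  have hcast : ((B - A : ℕ) : ℝ) = (B : ℝ) - A := Nat.cast_sub hAB2
  have hyK : y ^ K0 ≤ B - A := by
    have h1 : (y : ℝ) ^ K0 ≤ ((B - A : ℕ) : ℝ) := by
      rw [hcast]
      refine le_trans ?_ hAB
      rw [hsqrt]
      calc (y : ℝ) ^ K0 ≤ (u ^ 2) ^ K0 := pow_le_pow_left₀ (Nat.cast_nonneg _) hyu _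
        _ = u ^ (2 * K0) := by rw [← pow_mul]
        _ ≤ u ^ (2 * K0 * t) := by
          apply pow_le_pow_right₀ hu1
          nlinarith
    exact_mod_cast h1
  have hP : ∀ p ∈ (Ioc z0 y).filter Nat.Prime, p.Prime ∧ z0 < p ∧ p ≤ y ∧
      Pool.Agent.Y959.Sv.nu (QQ H A) p ≤ r := by
    intro p hp
    rw [mem_filter, mem_Ioc] at hp
    refine ⟨hp.2, hp.1.1, hp.1.2, ?_⟩
    rw [nu_eq]
    exact (om_le H p).trans hH
  have key := hsv y (B - A) hy3 hyK (QQ H A) (QQ_per H A) ((Ioc z0 y).filter Nat.Prime) hP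
  rw [hcast] at key
  have hprod : ∏ p ∈ (Ioc z0 y).filter Nat.Prime, (1 - (Pool.Agent.Y959.Sv.nu (QQ H A) p : ℝ) / p) =
      VP H z0 y := by
    unfold VP
    refine prod_congr rfl fun p _ => ?_
    rw [nu_eq]
  rw [hprod] at key
  have hs : √((B : ℝ) - A) ≤ √(X : ℝ) := by
    apply Real.sqrt_le_sqrt
    have h1 : (B : ℝ) ≤ X := by exact_mod_cast hBX
    have h2 : (0 : ℝ) ≤ A := Nat.cast_nonneg _
    linarith
  have hcard : (((Ioc A B).filter (fun n : ℕ => ∀ g ∈ H, Rg t X (n + g))).card : ℝ) ≤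
      (((Icc 1 (B - A)).filter (fun n : ℕ => ∀ p ∈ (Ioc z0 y).filter Nat.Prime,
        ¬ QQ H A p n)).card : ℝ) := by
    have h0 : ((Ioc A B).filter (fun n : ℕ => ∀ g ∈ H, Rg t X (n + g))).card ≤
        ((Icc 1 (B - A)).filter (fun n : ℕ => ∀ p ∈ (Ioc z0 y).filter Nat.Prime,
          ¬ QQ H A p n)).card := by
      apply card_le_card_of_injOn (fun n => n - A)
      · intro n hn
        rw [mem_coe, mem_filter, mem_Ioc] at hn
        rw [mem_coe, mem_filter, mem_Icc]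
        beta_reduce
        refine ⟨by omega, ?_⟩
        rintro p hp ⟨g, hg, hd⟩
        rw [mem_filter, mem_Ioc] at hp
        refine hn.2 g hg p hp.2 ?_ ?_
        · have h1 : (p : ℝ) ≤ y := by exact_mod_cast hp.1.2
          refine h1.trans (hyu.trans ?_)
          have h2 : (X : ℝ) ^ (1 / (t : ℝ)) = u ^ (4 * K0) := by
            rw [← huX]
            have e : u ^ (4 * K0 * t) = (u ^ (4 * K0)) ^ t := by rw [← pow_mul]
            rw [e, one_div]
            exact Real.pow_rpow_inv_natCast (by positivity) (by omega)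
          rw [h2]
          apply pow_le_pow_right₀ hu1
          have hK1 : 1 ≤ K0 := Nat.one_le_iff_ne_zero.2 (by positivity)
          omega
        · have h3 : ((n - A : ℕ) : ℤ) = (n : ℤ) - A := by
            rw [Nat.cast_sub (by omega)]
          rw [h3] at hd
          have h4 : (n : ℤ) - A + A + g = n + g := by ring
          rw [h4] at hd
          exact hd
      · intro n hn m hm h
        rw [mem_coe, mem_filter, mem_Ioc] at hn hm
        simp only at h
        omega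
    exact_mod_cast h0
  linarith

end Pool.Agent.K3h57.CP
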